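import Pool.Agent.Q240.LV.Stm
import Pool.Agent.Q285.SD.Lo2

/-!
# Project LV (helper240), job Lo: the lower bound for the sum over the zeros, without a bump function
-/

set_option autoImplicit false

open Filter Topology Finset MeasureTheory

namespace Pool.Agent.Q285.LV

open Pool.Agent.Y23 (TT Fa N2 QQ Zt mu IsZ Lg)
open Pool.Agent.Q240.SD (S_LoA S_Gau Ht)
open Pool.Agent.Q240.LV (S S_Sb S_Lo)
open Pool.Agent.Q285.SD (gauss_far norm_exp_div q_bound small)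

/-- the near and the far zeros -/
lemma split {l a V γ δ x t r : ℝ} {M N : ℕ} {c : ℕ → ℂ} {e0 : ℂ} {G : Finset Zt} {K : ℝ}
    (hsum : ∀ u : ℝ, 0 ≤ u → Summable fun ρ : Zt => (mu ρ : ℝ) *
      ‖Complex.exp (((l * a : ℝ) : ℂ) * (((ρ : ℂ) - 1 / 2) - t * Complex.I) ^ 2 + u * ((ρ : ℂ) - 1 / 2))‖)
    (hl1 : l ≤ 1) (hs : 2 ≤ l * a) (ha : 0 < a) (hlV : 16 ≤ l * (V - 1) ^ 2) (hV2 : 2 ≤ V) (ht : |t - γ| ≤ 1)
    (hδ : 0 < δ) (hδ1 : δ ≤ 1 / 2) (hx : 0 ≤ x)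
    (h1 : ((M : ℝ) + N) / (V + 1) ≤ 2 * (1 - 2 * δ / 16) * a)
    (h2 : ∑ k ∈ Finset.range N, ‖c k‖ ≤ Real.exp (-(2 * a * (x - δ / 4))))
    (hq : ∀ ρ : Zt, |(ρ : ℂ).im - γ| ≤ V → Complex.exp (M * ((ρ : ℂ) - 1 / 2) / (V + 1)) *
      ∑ k ∈ Finset.range N, c k * Complex.exp (k * ((ρ : ℂ) - 1 / 2) / (V + 1)) =
        if ‖Complex.exp (((ρ : ℂ) - 1 / 2) / (V + 1)) - e0‖ < r then 1 else 0)
    (hGm : ∀ ρ : Zt, ρ ∈ G ↔ |(ρ : ℂ).im - γ| ≤ V ∧ ‖Complex.exp (((ρ : ℂ) - 1 / 2) / (V + 1)) - e0‖ < r)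
    (hK : ∑' ρ : Zt, (mu ρ : ℝ) * (1 / (1 + ((ρ : ℂ).im - t) ^ 2)) ≤ K * Lg t) :
    ‖∑ ρ ∈ G, (mu ρ : ℂ) * Complex.exp (((l * a : ℝ) : ℂ) * (((ρ : ℂ) - 1 / 2) - t * Complex.I) ^ 2) -
      ∑ k ∈ Finset.range N, c k * S (l * a) t (((M : ℝ) + k) / (V + 1))‖ ≤
      2 * Real.exp (-(5 * a)) * (K * Lg t) := by
  classical
  have hV1 : 0 < V + 1 := by linarith
  obtain ⟨E, hE⟩ : ∃ E : Zt → ℂ, ∀ ρ, E ρ = (mu ρ : ℂ) * Complex.exp (((l * a : ℝ) : ℂ) * (((ρ : ℂ) - 1 / 2) - t * Complex.I) ^ 2) := ⟨_, fun _ => rfl⟩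
  obtain ⟨q, hqq⟩ : ∃ q : Zt → ℂ, ∀ ρ, q ρ = Complex.exp (M * ((ρ : ℂ) - 1 / 2) / (V + 1)) *
      ∑ k ∈ Finset.range N, c k * Complex.exp (k * ((ρ : ℂ) - 1 / 2) / (V + 1)) := ⟨_, fun _ => rfl⟩
  -- the terms
  have hterm : ∀ (k : ℕ) (ρ : Zt), (mu ρ : ℂ) * Complex.exp (((l * a : ℝ) : ℂ) * (((ρ : ℂ) - 1 / 2) - t * Complex.I) ^ 2 +
        ((((M : ℝ) + k) / (V + 1) : ℝ) : ℂ) * ((ρ : ℂ) - 1 / 2)) =
      E ρ * (Complex.exp (M * ((ρ : ℂ) - 1 / 2) / (V + 1)) * Complex.exp (k * ((ρ : ℂ) - 1 / 2) / (V + 1))) := by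
    intro k ρ
    have e : ((((M : ℝ) + k) / (V + 1) : ℝ) : ℂ) * ((ρ : ℂ) - 1 / 2) =
        M * ((ρ : ℂ) - 1 / 2) / (V + 1) + k * ((ρ : ℂ) - 1 / 2) / (V + 1) := by
      push_cast
      ring
    rw [hE, e, Complex.exp_add, Complex.exp_add]
    ring
  have hsm : ∀ k : ℕ, Summable fun ρ : Zt =>
      E ρ * (Complex.exp (M * ((ρ : ℂ) - 1 / 2) / (V + 1)) * Complex.exp (k * ((ρ : ℂ) - 1 / 2) / (V + 1))) := by
    intro k
    have h3 := hsum (((M : ℝ) + k) / (V + 1)) (by positivity)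
    refine Summable.of_norm (h3.congr fun ρ => ?_)
    rw [← hterm k ρ, norm_mul (mu ρ : ℂ), Complex.norm_natCast]
  have hSzk : ∀ k : ℕ, S (l * a) t (((M : ℝ) + k) / (V + 1)) = ∑' ρ : Zt,
      E ρ * (Complex.exp (M * ((ρ : ℂ) - 1 / 2) / (V + 1)) * Complex.exp (k * ((ρ : ℂ) - 1 / 2) / (V + 1))) := by
    intro k
    unfold S
    exact tsum_congr fun ρ => hterm k ρ
  have hall : ∑ k ∈ Finset.range N, c k * S (l * a) t (((M : ℝ) + k) / (V + 1)) = ∑' ρ : Zt, E ρ * q ρ := by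
    have h3 : ∀ k ∈ Finset.range N, c k * S (l * a) t (((M : ℝ) + k) / (V + 1)) = ∑' ρ : Zt,
      c k * (E ρ * (Complex.exp (M * ((ρ : ℂ) - 1 / 2) / (V + 1)) * Complex.exp (k * ((ρ : ℂ) - 1 / 2) / (V + 1)))) := by
      intro k _
      rw [hSzk k, tsum_mul_left]
    rw [Finset.sum_congr rfl h3, ← Summable.tsum_finsetSum (fun k _ => (hsm k).mul_left (c k))]
    refine tsum_congr fun ρ => ?_
    rw [hqq, Finset.mul_sum, Finset.mul_sum]
    refine Finset.sum_congr rfl fun k _ => ?_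
    ring
  have hallsm : Summable fun ρ : Zt => E ρ * q ρ := by
    have h3 : Summable fun ρ : Zt => ∑ k ∈ Finset.range N,
      c k * (E ρ * (Complex.exp (M * ((ρ : ℂ) - 1 / 2) / (V + 1)) * Complex.exp (k * ((ρ : ℂ) - 1 / 2) / (V + 1)))) :=
      summable_sum fun k _ => (hsm k).mul_left (c k)
    refine h3.congr fun ρ => ?_
    rw [hqq, Finset.mul_sum, Finset.mul_sum]
    refine Finset.sum_congr rfl fun k _ => ?_
    ring
  have hGs : HasSum (fun ρ : Zt => if ρ ∈ G then E ρ else 0) (∑ ρ ∈ G, (if ρ ∈ G then E ρ else 0)) :=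
    hasSum_sum_of_ne_finset_zero fun ρ hρ => if_neg hρ
  have hGe : ∑ ρ ∈ G, (if ρ ∈ G then E ρ else 0) = ∑ ρ ∈ G, E ρ :=
    Finset.sum_congr rfl fun ρ hρ => if_pos hρ
  rw [hGe] at hGs
  have hdiff : HasSum (fun ρ : Zt => (if ρ ∈ G then E ρ else 0) - E ρ * q ρ)
      (∑ ρ ∈ G, E ρ - ∑' ρ : Zt, E ρ * q ρ) := hGs.sub hallsm.hasSum
  have hb : ∀ ρ : Zt, ‖(if ρ ∈ G then E ρ else 0) - E ρ * q ρ‖ ≤
      2 * Real.exp (-(5 * a)) * ((mu ρ : ℝ) * (1 / (1 + ((ρ : ℂ).im - t) ^ 2))) := by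
    intro ρ
    have hpos : 0 ≤ 2 * Real.exp (-(5 * a)) * ((mu ρ : ℝ) * (1 / (1 + ((ρ : ℂ).im - t) ^ 2))) := by positivity
    by_cases hw : |(ρ : ℂ).im - γ| ≤ V
    · have h3 := hq ρ hw
      rw [← hqq ρ] at h3
      by_cases hr : ‖Complex.exp (((ρ : ℂ) - 1 / 2) / (V + 1)) - e0‖ < r
      · rw [if_pos hr] at h3
        rw [if_pos ((hGm ρ).2 ⟨hw, hr⟩), h3, mul_one, sub_self, norm_zero]
        exact hpos
      · rw [if_neg hr] at h3
        rw [if_neg (fun h => hr ((hGm ρ).1 h).2), h3, mul_zero, sub_self, norm_zero]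
        exact hpos
    · rw [if_neg (fun h => hw ((hGm ρ).1 h).1), zero_sub, norm_neg, norm_mul, hE, norm_mul,
        Complex.norm_natCast]
      have him : ((ρ : ℂ) - 1 / 2).im = (ρ : ℂ).im := by simp
      have h4 := gauss_far (w := (ρ : ℂ) - 1 / 2) (Pool.Agent.Y23.half_re ρ) hl1 hs ha hlV hV2 ht
        (by rw [him]; exact not_le.1 hw)
      rw [him] at h4
      have h5 : ‖q ρ‖ ≤ Real.exp (2 * a) := by
        rw [hqq]
        exact q_bound (Pool.Agent.Y23.half_re ρ) hV2 ha hδ hδ1 hx h1 h2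
      have hmu : (0 : ℝ) ≤ (mu ρ : ℝ) := Nat.cast_nonneg _
      have h6 : ‖Complex.exp (((l * a : ℝ) : ℂ) * (((ρ : ℂ) - 1 / 2) - t * Complex.I) ^ 2)‖ ≤
          2 * (Real.exp (-(7 * a)) * (1 / (1 + ((ρ : ℂ).im - t) ^ 2))) := by
        have h60 : 0 ≤ Real.exp (-(7 * a)) * (1 / (1 + ((ρ : ℂ).im - t) ^ 2)) := by positivity
        linarith
      have h7 : (mu ρ : ℝ) *
          ‖Complex.exp (((l * a : ℝ) : ℂ) * (((ρ : ℂ) - 1 / 2) - t * Complex.I) ^ 2)‖ ≤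
          (mu ρ : ℝ) * (2 * (Real.exp (-(7 * a)) * (1 / (1 + ((ρ : ℂ).im - t) ^ 2)))) :=
        mul_le_mul_of_nonneg_left h6 hmu
      refine (mul_le_mul h7 h5 (norm_nonneg _) (by positivity)).trans (le_of_eq ?_)
      have h8 : Real.exp (-(7 * a)) * Real.exp (2 * a) = Real.exp (-(5 * a)) := by
        rw [← Real.exp_add]
        congr 1
        ring
      rw [← h8]
      ring
  have hz := Pool.Agent.Y23.zsummable t
  have hEq : ∑ ρ ∈ G, (mu ρ : ℂ) * Complex.exp (((l * a : ℝ) : ℂ) * (((ρ : ℂ) - 1 / 2) - t * Complex.I) ^ 2) = ∑ ρ ∈ G, E ρ :=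
    Finset.sum_congr rfl fun ρ _ => (hE ρ).symm
  rw [hEq, hall, ← hdiff.tsum_eq]
  refine (tsum_of_norm_bounded (hz.mul_left (2 * Real.exp (-(5 * a)))).hasSum hb).trans ?_
  rw [tsum_mul_left]
  exact mul_le_mul_of_nonneg_left hK (by positivity)

theorem lo (h1 : S_LoA) (h2 : S_Gau) (h4 : S_Sb) : S_Lo := by
  classical
  intro δ l hδ hδ1 hl hl1
  obtain ⟨s0, hs0, hG⟩ := h2
  obtain ⟨_, -, hSz⟩ := h4
  obtain ⟨K, hK, hzs⟩ := Pool.Agent.Y23.zsum_le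
  obtain ⟨V, hV2, hlV⟩ : ∃ V : ℝ, 2 ≤ V ∧ 16 ≤ l * (V - 1) ^ 2 := by
    refine ⟨2 + 4 / Real.sqrt l, ?_, ?_⟩
    · have : 0 ≤ 4 / Real.sqrt l := by positivity
      linarith
    · have h5 : 0 < Real.sqrt l := Real.sqrt_pos.2 hl
      have h6 : 4 / Real.sqrt l ≤ 2 + 4 / Real.sqrt l - 1 := by linarith
      have h7 : (4 / Real.sqrt l) ^ 2 ≤ (2 + 4 / Real.sqrt l - 1) ^ 2 := pow_le_pow_left₀ (by positivity) h6 2
      have h8 : l * (4 / Real.sqrt l) ^ 2 = 16 := by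
        rw [div_pow, Real.sq_sqrt hl.le, mul_div_cancel₀ _ hl.ne']
        norm_num
      calc (16 : ℝ) = l * (4 / Real.sqrt l) ^ 2 := h8.symm
        _ ≤ _ := mul_le_mul_of_nonneg_left h7 hl.le
  obtain ⟨C0, hC0⟩ := h1 δ V hδ hδ1 hV2
  refine ⟨max C0 1, fun C hC => ?_⟩
  have hC1 : 1 ≤ C := (le_max_right _ _).trans hC
  have hCp : 0 < C := by linarith
  obtain ⟨A1, hA1⟩ := hC0 C ((le_max_left _ _).trans hC)
  refine ⟨max A1 (max (5 * C) (max ((s0 + 2) / l) (max (640 / δ ^ 2 + 1) (240 * K + 1)))),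
    fun a ha ρ0 hρ0 hρ1 => ?_⟩
  have ha1 : A1 ≤ a := (le_max_left _ _).trans ha
  have hb1 := (le_max_right _ _).trans ha
  have ha2 : 5 * C ≤ a := (le_max_left _ _).trans hb1
  have hb2 := (le_max_right _ _).trans hb1
  have ha3 : (s0 + 2) / l ≤ a := (le_max_left _ _).trans hb2
  have hb3 := (le_max_right _ _).trans hb2
  have ha4 : 640 / δ ^ 2 + 1 ≤ a := (le_max_left _ _).trans hb3
  have ha5 : 240 * K + 1 ≤ a := (le_max_right _ _).trans hb3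
  have ha0 : 5 ≤ a := by linarith
  have hap : 0 < a := by linarith
  have hs3 : s0 + 2 ≤ l * a := by
    rw [div_le_iff₀ hl] at ha3
    linarith
  have hs2 : 2 ≤ l * a := by linarith
  obtain ⟨M, N, c, r, hr, hM1, hM2, hq, hnear, hc⟩ := hA1 a ha1 ρ0 hρ0 hρ1
  obtain ⟨T, hT⟩ : ∃ T, T = Ht C a := ⟨_, rfl⟩
  rw [← hT] at hρ1
  have hT10 : 10 ≤ T := by
    rw [hT, Ht]
    have h5 := Real.add_one_le_exp (2 * a / C)
    have h6 : 10 ≤ 2 * a / C := by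
      rw [le_div_iff₀ hCp]
      linarith
    linarith
  have hTp : 0 < T := by linarith
  have hT2 : T ≤ Real.exp (2 * a) := by
    rw [hT, Ht]
    exact Real.exp_le_exp.2 (div_le_self (by positivity) hC1)
  by_contra hcon
  have hcon2 : ∀ t b : ℝ, |t - (ρ0 : ℂ).im| ≤ 1 → (1 - 3 * δ / 16) * a ≤ b → b ≤ (1 - 2 * δ / 16) * a →
      ‖S (l * a) t (2 * b)‖ < Real.exp (2 * a * ((ρ0 : ℂ).re - 1 / 2 - δ / 2)) := by
    intro t b h5 h6 h7
    by_contra h8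
    exact hcon ⟨t, b, h5, h6, h7, not_lt.1 h8⟩
  have hfin : {ρ : Zt | |(ρ : ℂ).im - (ρ0 : ℂ).im| ≤ V ∧ ‖Complex.exp (((ρ : ℂ) - 1 / 2) / (V + 1)) -
      Complex.exp (((ρ0 : ℂ) - 1 / 2) / (V + 1))‖ < r}.Finite := by
    refine ((Pool.Agent.Y23.isZ_finite (|(ρ0 : ℂ).im| + V)).preimage (f := fun ρ : Zt => (ρ : ℂ))
      Subtype.val_injective.injOn).subset ?_
    rintro ρ ⟨h5, -⟩
    refine ⟨ρ.2, ?_⟩
    have := abs_sub_abs_le_abs_sub (ρ : ℂ).im (ρ0 : ℂ).im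
    show |(ρ : ℂ).im| ≤ |(ρ0 : ℂ).im| + V
    linarith
  obtain ⟨G, hGm⟩ : ∃ G : Finset Zt, ∀ ρ : Zt, ρ ∈ G ↔ |(ρ : ℂ).im - (ρ0 : ℂ).im| ≤ V ∧
      ‖Complex.exp (((ρ : ℂ) - 1 / 2) / (V + 1)) - Complex.exp (((ρ0 : ℂ) - 1 / 2) / (V + 1))‖ < r :=
    ⟨hfin.toFinset, fun ρ => by rw [Set.Finite.mem_toFinset]; rfl⟩
  obtain ⟨F, hF⟩ : ∃ F : ℝ → ℂ, ∀ t, F t = ∑ ρ ∈ G, (mu ρ : ℂ) * Complex.exp (((l * a : ℝ) : ℂ) * (((ρ : ℂ) - 1 / 2) - t * Complex.I) ^ 2) := ⟨_, fun _ => rfl⟩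
  -- upper bound
  have hup : ∀ t : ℝ, |t - (ρ0 : ℂ).im| ≤ 1 → ‖F t‖ ≤ Real.exp (-(a * δ / 2)) + 4 * K * Real.exp (-(3 * a)) := by
    intro t ht
    have h5 := split (l := l) (a := a) (V := V) (γ := (ρ0 : ℂ).im) (δ := δ)
      (x := (ρ0 : ℂ).re - 1 / 2) (t := t) (r := r) (M := M) (N := N) (c := c)
      (e0 := Complex.exp (((ρ0 : ℂ) - 1 / 2) / (V + 1))) (G := G) (K := K)
      (fun u hu => (hSz (l * a) t u hs2 hu).1) hl1 hs2 hap hlV hV2 ht hδ hδ1 (by linarith) hM2 hc hq hGm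
      (hzs t)
    rw [← hF t] at h5
    have h6 : ∀ k ∈ Finset.range N, ‖c k * S (l * a) t (((M : ℝ) + k) / (V + 1))‖ ≤
        ‖c k‖ * Real.exp (2 * a * ((ρ0 : ℂ).re - 1 / 2 - δ / 2)) := by
      intro k hk
      have hV1 : 0 < V + 1 := by linarith
      have hkN : (k : ℝ) ≤ N := by exact_mod_cast (Finset.mem_range.1 hk).le
      rw [norm_mul]
      refine mul_le_mul_of_nonneg_left ?_ (norm_nonneg _)
      have e : 2 * (((M : ℝ) + k) / (V + 1) / 2) = ((M : ℝ) + k) / (V + 1) := by ring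
      have h7 := hcon2 t (((M : ℝ) + k) / (V + 1) / 2) ht (by
        have h8 : (M : ℝ) / (V + 1) ≤ ((M : ℝ) + k) / (V + 1) :=
          div_le_div_of_nonneg_right (by have : (0 : ℝ) ≤ k := Nat.cast_nonneg k; linarith) hV1.le
        linarith) (by
        have h8 : ((M : ℝ) + k) / (V + 1) ≤ ((M : ℝ) + N) / (V + 1) :=
          div_le_div_of_nonneg_right (by linarith) hV1.le
        linarith)
      rw [e] at h7
      exact h7.le
    have h7 : ‖∑ k ∈ Finset.range N, c k * S (l * a) t (((M : ℝ) + k) / (V + 1))‖ ≤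
        Real.exp (-(a * δ / 2)) := by
      refine (norm_sum_le _ _).trans ((Finset.sum_le_sum h6).trans ?_)
      rw [← Finset.sum_mul]
      refine (mul_le_mul_of_nonneg_right hc (Real.exp_pos _).le).trans (le_of_eq ?_)
      rw [← Real.exp_add]
      congr 1
      ring
    have h8 : Lg t ≤ 2 * Real.exp (2 * a) := by
      unfold Pool.Agent.Y23.Lg
      have h9 : 0 < 3 + |t| := by positivity
      have h10 := Real.log_le_sub_one_of_pos h9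
      have h11 : |t| ≤ T + 1 := by
        have := abs_sub_abs_le_abs_sub t (ρ0 : ℂ).im
        linarith
      linarith
    have h9 : 2 * Real.exp (-(5 * a)) * (K * Lg t) ≤ 4 * K * Real.exp (-(3 * a)) := by
      have h10 : K * Lg t ≤ K * (2 * Real.exp (2 * a)) := mul_le_mul_of_nonneg_left h8 hK.le
      have h11 : 2 * Real.exp (-(5 * a)) * (K * Lg t) ≤ 2 * Real.exp (-(5 * a)) * (K * (2 * Real.exp (2 * a))) :=
        mul_le_mul_of_nonneg_left h10 (by positivity)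
      refine h11.trans (le_of_eq ?_)
      have h12 : Real.exp (-(5 * a)) * Real.exp (2 * a) = Real.exp (-(3 * a)) := by
        rw [← Real.exp_add]
        congr 1
        ring
      rw [← h12]
      ring
    have h10 := norm_le_norm_add_norm_sub' (F t) (∑ k ∈ Finset.range N, c k * S (l * a) t (((M : ℝ) + k) / (V + 1)))
    linarith
  -- the integral
  obtain ⟨J, hJ⟩ : ∃ J : Zt → ℂ, ∀ ρ, J ρ = ∫ t in (-1 : ℝ)..1,
      Complex.exp (((l * a : ℝ) : ℂ) * ((((ρ : ℂ) - 1 / 2) - (ρ0 : ℂ).im * Complex.I) - t * Complex.I) ^ 2) :=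
    ⟨_, fun _ => rfl⟩
  have hint : (∫ t in (-1 : ℝ)..1, F (t + (ρ0 : ℂ).im)) =
      ∑ ρ ∈ G, (mu ρ : ℂ) * J ρ := by
    have h5 : ∀ t : ℝ, F (t + (ρ0 : ℂ).im) = ∑ ρ ∈ G, (mu ρ : ℂ) *
        Complex.exp (((l * a : ℝ) : ℂ) * ((((ρ : ℂ) - 1 / 2) - (ρ0 : ℂ).im * Complex.I) - t * Complex.I) ^ 2) := by
      intro t
      rw [hF]
      refine Finset.sum_congr rfl fun ρ _ => ?_
      have e : ((ρ : ℂ) - 1 / 2) - ((t + (ρ0 : ℂ).im : ℝ) : ℂ) * Complex.I =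
          (((ρ : ℂ) - 1 / 2) - (ρ0 : ℂ).im * Complex.I) - t * Complex.I := by
        push_cast
        ring
      rw [e]
    have h6 : (fun t : ℝ => F (t + (ρ0 : ℂ).im)) = fun t : ℝ => ∑ ρ ∈ G, (mu ρ : ℂ) *
        Complex.exp (((l * a : ℝ) : ℂ) * ((((ρ : ℂ) - 1 / 2) - (ρ0 : ℂ).im * Complex.I) - t * Complex.I) ^ 2) := funext h5
    rw [h6, intervalIntegral.integral_finsetSum]
    · refine Finset.sum_congr rfl fun ρ _ => ?_
      rw [intervalIntegral.integral_const_mul, hJ]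
    · intro ρ _
      refine Continuous.intervalIntegrable ?_ _ _
      fun_prop
  have hRp : 0 < Real.sqrt (Real.pi / (l * a)) := Real.sqrt_pos.2 (by positivity)
  have hterm : ∀ ρ ∈ G, Real.sqrt (Real.pi / (l * a)) / 20 ≤ (J ρ).re := by
    intro ρ hρ
    obtain ⟨hρV, hρr⟩ := (hGm ρ).1 hρ
    have h5 := hnear ρ hρV hρr
    have him : |(ρ : ℂ).im - (ρ0 : ℂ).im| ≤ 1 / 8 := by
      have h6 := Complex.abs_im_le_norm ((ρ : ℂ) - (ρ0 : ℂ))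
      rw [Complex.sub_im] at h6
      exact h6.trans h5
    have h6 := hG (l * a) (((ρ : ℂ) - 1 / 2) - (ρ0 : ℂ).im * Complex.I) (by linarith) (by
      have := Pool.Agent.Y23.half_re ρ
      rw [Complex.sub_re, Complex.re_ofReal_mul, Complex.I_re, mul_zero, sub_zero]
      exact this) (by
      rw [Complex.sub_im, Complex.im_ofReal_mul, Complex.I_im, mul_one]
      have e : ((ρ : ℂ) - 1 / 2).im = (ρ : ℂ).im := by simp
      rw [e]
      exact him)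
    rw [← hJ ρ] at h6
    have h9 := Complex.abs_re_le_norm (J ρ - ((Real.sqrt (Real.pi / (l * a)) : ℝ) : ℂ))
    rw [Complex.sub_re, Complex.ofReal_re] at h9
    have h10 := neg_abs_le ((J ρ).re - Real.sqrt (Real.pi / (l * a)))
    linarith
  have hlow : Real.sqrt (Real.pi / (l * a)) / 20 ≤ ‖∫ t in (-1 : ℝ)..1, F (t + (ρ0 : ℂ).im)‖ := by
    rw [hint]
    refine le_trans ?_ (Complex.re_le_norm _)
    rw [Complex.re_sum]
    have h5 : ∀ ρ : Zt, ((mu ρ : ℂ) * J ρ).re =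
        (mu ρ : ℝ) * (J ρ).re := by
      intro ρ
      have e : (mu ρ : ℂ) = (((mu ρ : ℕ) : ℝ) : ℂ) := by push_cast; rfl
      rw [e, Complex.re_ofReal_mul]
    rw [Finset.sum_congr rfl fun ρ _ => h5 ρ]
    have hρG : ρ0 ∈ G := by
      rw [hGm]
      rw [sub_self, abs_zero, sub_self, norm_zero]
      exact ⟨by linarith, hr⟩
    have h6 : ∀ ρ ∈ G, 0 ≤ (mu ρ : ℝ) * (J ρ).re := by
      intro ρ hρ
      have := hterm ρ hρ
      exact mul_nonneg (Nat.cast_nonneg _) (by linarith)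
    refine le_trans ?_ (Finset.single_le_sum h6 hρG)
    have h7 : (1 : ℝ) ≤ (mu ρ0 : ℝ) := by exact_mod_cast Pool.Agent.Y23.mu_pos ρ0.2
    have h8 := hterm ρ0 hρG
    have h9 : 0 ≤ (J ρ0).re := by linarith
    have h10 := mul_le_mul_of_nonneg_right h7 h9
    linarith
  have hupint : ‖∫ t in (-1 : ℝ)..1, F (t + (ρ0 : ℂ).im)‖ ≤
      (Real.exp (-(a * δ / 2)) + 4 * K * Real.exp (-(3 * a))) * |(1 : ℝ) - (-1)| := by
    refine intervalIntegral.norm_integral_le_of_norm_le_const fun t ht => ?_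
    rw [Set.uIoc_of_le (by norm_num)] at ht
    refine hup _ ?_
    rw [add_sub_cancel_right, abs_le]
    exact ⟨ht.1.le, ht.2⟩
  have e2 : |(1 : ℝ) - (-1)| = 2 := by norm_num
  rw [e2] at hupint
  have hsm := small ha0 hl hl1 hδ ha4 ha5 hK
  linarith

end Pool.Agent.Q285.LV
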