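import Mathlib

/-!
# Project LV, job LV-5, first part: potentials of measures with a Morrey bound (helper285)
-/

set_option autoImplicit false

open MeasureTheory Set Metric Filter Topology
open scoped ENNReal

namespace Pool.Agent.Q285.LV

abbrev W3 := Fin 3 → ℝ

/-- integrals over shells -/
lemma shells {f : W3 → ℝ≥0∞} {x : W3} {p : ℕ} {r t : ℕ → ℝ} {U : Set W3} {c : ℕ → ℝ}
    (hr : ∀ j, 0 < r j) (hU : ∀ y ∈ U, ‖y - x‖ = 0 ∨ ∃ j, r j < ‖y - x‖ ∧ ‖y - x‖ ≤ t j)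
    (hf : ∀ j, ∫⁻ y in closedBall x (t j), f y ≤ ENNReal.ofReal (c j)) :
    ∫⁻ y in U, f y * ENNReal.ofReal ((‖y - x‖ ^ p)⁻¹) ≤
      ∑' j, ENNReal.ofReal ((r j ^ p)⁻¹) * ENNReal.ofReal (c j) := by
  have hn : Measurable fun y : W3 => ‖y - x‖ := by fun_prop
  have hm : ∀ j, MeasurableSet {y : W3 | r j < ‖y - x‖ ∧ ‖y - x‖ ≤ t j} := fun j =>
    (measurableSet_lt measurable_const hn).inter (measurableSet_le hn measurable_const)
  have h1 : U ⊆ {x} ∪ ⋃ j, {y : W3 | r j < ‖y - x‖ ∧ ‖y - x‖ ≤ t j} := by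
    intro y hy
    rcases hU y hy with h | ⟨j, h⟩
    · left
      rw [norm_eq_zero, sub_eq_zero] at h
      exact h
    · right
      exact mem_iUnion.2 ⟨j, h⟩
  have h2 : ∫⁻ y in ({x} : Set W3), f y * ENNReal.ofReal ((‖y - x‖ ^ p)⁻¹) = 0 :=
    setLIntegral_measure_zero _ _ (by simp)
  calc ∫⁻ y in U, f y * ENNReal.ofReal ((‖y - x‖ ^ p)⁻¹)
      ≤ ∫⁻ y in {x} ∪ ⋃ j, {y : W3 | r j < ‖y - x‖ ∧ ‖y - x‖ ≤ t j},
          f y * ENNReal.ofReal ((‖y - x‖ ^ p)⁻¹) := lintegral_mono_set h1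
    _ ≤ (∫⁻ y in ({x} : Set W3), f y * ENNReal.ofReal ((‖y - x‖ ^ p)⁻¹)) +
        ∫⁻ y in ⋃ j, {y : W3 | r j < ‖y - x‖ ∧ ‖y - x‖ ≤ t j},
          f y * ENNReal.ofReal ((‖y - x‖ ^ p)⁻¹) := lintegral_union_le _ _ _
    _ = ∫⁻ y in ⋃ j, {y : W3 | r j < ‖y - x‖ ∧ ‖y - x‖ ≤ t j},
          f y * ENNReal.ofReal ((‖y - x‖ ^ p)⁻¹) := by rw [h2, zero_add]
    _ ≤ ∑' j, ∫⁻ y in {y : W3 | r j < ‖y - x‖ ∧ ‖y - x‖ ≤ t j},
          f y * ENNReal.ofReal ((‖y - x‖ ^ p)⁻¹) := lintegral_iUnion_le _ _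
    _ ≤ ∑' j, ENNReal.ofReal ((r j ^ p)⁻¹) * ENNReal.ofReal (c j) := by
        refine ENNReal.tsum_le_tsum fun j => ?_
        calc ∫⁻ y in {y : W3 | r j < ‖y - x‖ ∧ ‖y - x‖ ≤ t j},
              f y * ENNReal.ofReal ((‖y - x‖ ^ p)⁻¹)
            ≤ ∫⁻ y in {y : W3 | r j < ‖y - x‖ ∧ ‖y - x‖ ≤ t j},
                ENNReal.ofReal ((r j ^ p)⁻¹) * f y := by
              refine setLIntegral_mono' (hm j) fun y hy => ?_
              rw [mul_comm]
              refine mul_le_mul_left (ENNReal.ofReal_le_ofReal ?_) _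
              exact inv_anti₀ (pow_pos (hr j) p) (pow_le_pow_left₀ (hr j).le hy.1.le p)
          _ = ENNReal.ofReal ((r j ^ p)⁻¹) *
                ∫⁻ y in {y : W3 | r j < ‖y - x‖ ∧ ‖y - x‖ ≤ t j}, f y :=
              lintegral_const_mul' _ _ ENNReal.ofReal_ne_top
          _ ≤ ENNReal.ofReal ((r j ^ p)⁻¹) * ∫⁻ y in closedBall x (t j), f y := by
              gcongr
              intro y hy
              rw [mem_closedBall, dist_eq_norm]
              exact hy.2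
          _ ≤ _ := by gcongr; exact hf j

/-- a geometric series -/
lemma geom {D q : ℝ} (hD : 0 ≤ D) (hq : 0 ≤ q) (hq1 : q < 1) :
    ∑' j : ℕ, ENNReal.ofReal (D * q ^ j) = ENNReal.ofReal (D * (1 - q)⁻¹) := by
  have h1 := (summable_geometric_of_lt_one hq hq1).mul_left D
  rw [← ENNReal.ofReal_tsum_of_nonneg (fun j => by positivity) h1, tsum_mul_left,
    tsum_geometric_of_lt_one hq hq1]

/-- near potentials -/
lemma near {f : W3 → ℝ≥0∞} {x : W3} {B a : ℝ} {p : ℕ} {S : ℝ} (hS : 0 < S) (hB : 0 ≤ B)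
    (hap : (p : ℝ) < a)
    (hf : ∀ s, 0 < s → ∫⁻ y in closedBall x s, f y ≤ ENNReal.ofReal (B * s ^ a)) :
    ∫⁻ y in closedBall x S, f y * ENNReal.ofReal ((‖y - x‖ ^ p)⁻¹) ≤
      ENNReal.ofReal (B * S ^ (a - p) * 2 ^ p * (1 - (2 : ℝ) ^ (p - a))⁻¹) := by
  have h1 := shells (f := f) (x := x) (p := p) (r := fun j => S / 2 ^ (j + 1)) (t := fun j => S / 2 ^ j)
    (U := closedBall x S) (c := fun j => B * (S / 2 ^ j) ^ a) (fun j => by positivity) (fun y hy => by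
      rw [mem_closedBall, dist_eq_norm] at hy
      rcases (norm_nonneg (y - x)).eq_or_lt with h | h
      · left
        exact h.symm
      · right
        have h2 : 1 ≤ S / ‖y - x‖ := by rwa [one_le_div h]
        obtain ⟨n, hn1, hn2⟩ := exists_nat_pow_near h2 one_lt_two
        refine ⟨n, ?_, ?_⟩
        · rw [div_lt_iff₀ h] at hn2
          rw [div_lt_iff₀ (by positivity)]
          linarith
        · rw [le_div_iff₀ h] at hn1
          rw [le_div_iff₀ (by positivity)]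
          linarith) (fun j => hf _ (by positivity))
  refine h1.trans ?_
  have hq : (2 : ℝ) ^ ((p : ℝ) - a) < 1 := Real.rpow_lt_one_of_one_lt_of_neg (by norm_num) (by linarith)
  have e : ∀ j : ℕ, ENNReal.ofReal (((S / 2 ^ (j + 1)) ^ p)⁻¹) * ENNReal.ofReal (B * (S / 2 ^ j) ^ a) =
      ENNReal.ofReal (B * S ^ (a - p) * 2 ^ p * ((2 : ℝ) ^ ((p : ℝ) - a)) ^ j) := by
    intro j
    rw [← ENNReal.ofReal_mul (by positivity)]
    congr 1
    have e1 : ((2 : ℝ) ^ ((p : ℝ) - a)) ^ j = (2 ^ j) ^ p / (2 ^ j : ℝ) ^ a := by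
      rw [← Real.rpow_natCast, ← Real.rpow_mul (by norm_num), ← pow_mul, ← Real.rpow_natCast 2 (j * p),
        ← Real.rpow_natCast 2 j, ← Real.rpow_mul (by norm_num), ← Real.rpow_sub (by norm_num)]
      congr 1
      push_cast
      ring
    have e2 : S ^ (a - p) = S ^ a / S ^ p := by
      rw [Real.rpow_sub hS, Real.rpow_natCast]
    rw [e1, e2, Real.div_rpow hS.le (by positivity), div_pow, pow_succ, mul_pow]
    field_simp
  simp only [e]
  rw [geom (by positivity) (by positivity) hq]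

/-- far potentials -/
lemma far {f : W3 → ℝ≥0∞} {x : W3} {B a : ℝ} {p : ℕ} {R : ℝ} (hR : 0 < R) (hB : 0 ≤ B)
    (hap : a < p)
    (hf : ∀ s, 0 < s → ∫⁻ y in closedBall x s, f y ≤ ENNReal.ofReal (B * s ^ a)) :
    ∫⁻ y in (closedBall x R)ᶜ, f y * ENNReal.ofReal ((‖y - x‖ ^ p)⁻¹) ≤
      ENNReal.ofReal (B * R ^ (a - p) * (2 ^ p * 2 ^ a) * (1 - (2 : ℝ) ^ (a - p))⁻¹) := by
  have h1 := shells (f := f) (x := x) (p := p) (r := fun j => R * 2 ^ j / 2)
    (t := fun j => R * 2 ^ (j + 1))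
    (U := (closedBall x R)ᶜ) (c := fun j => B * (R * 2 ^ (j + 1)) ^ a) (fun j => by positivity)
    (fun y hy => by
      rw [mem_compl_iff, mem_closedBall, dist_eq_norm, not_le] at hy
      right
      have h2 : 1 ≤ ‖y - x‖ / R := by rw [one_le_div hR]; exact hy.le
      obtain ⟨n, hn1, hn2⟩ := exists_nat_pow_near h2 one_lt_two
      rw [div_lt_iff₀ hR] at hn2
      rw [le_div_iff₀ hR] at hn1
      have h3 : 0 < R * 2 ^ n := by positivity
      exact ⟨n, by linarith, by linarith⟩) (fun j => hf _ (by positivity))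
  refine h1.trans ?_
  have hq : (2 : ℝ) ^ (a - (p : ℝ)) < 1 := Real.rpow_lt_one_of_one_lt_of_neg (by norm_num) (by linarith)
  have e : ∀ j : ℕ, ENNReal.ofReal (((R * 2 ^ j / 2) ^ p)⁻¹) * ENNReal.ofReal (B * (R * 2 ^ (j + 1)) ^ a) =
      ENNReal.ofReal (B * R ^ (a - p) * (2 ^ p * 2 ^ a) * ((2 : ℝ) ^ (a - (p : ℝ))) ^ j) := by
    intro j
    rw [← ENNReal.ofReal_mul (by positivity)]
    congr 1
    have e1 : ((2 : ℝ) ^ (a - (p : ℝ))) ^ j = (2 ^ j : ℝ) ^ a / (2 ^ j) ^ p := by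
      rw [← Real.rpow_natCast, ← Real.rpow_mul (by norm_num), ← pow_mul, ← Real.rpow_natCast 2 (j * p),
        ← Real.rpow_natCast 2 j, ← Real.rpow_mul (by norm_num), ← Real.rpow_sub (by norm_num)]
      congr 1
      push_cast
      ring
    have e2 : R ^ (a - p) = R ^ a / R ^ p := by
      rw [Real.rpow_sub hR, Real.rpow_natCast]
    rw [e1, e2, pow_succ, Real.mul_rpow hR.le (by positivity), Real.mul_rpow (by positivity) (by norm_num),
      div_pow, mul_pow]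
    field_simp
  simp only [e]
  rw [geom (by positivity) (by positivity) hq]

/-- the volume of balls -/
lemma vol (x : W3) {s : ℝ} (hs : 0 < s) :
    ∫⁻ _y in closedBall x s, (1 : ℝ≥0∞) ≤ ENNReal.ofReal (8 * s ^ (3 : ℝ)) := by
  rw [lintegral_one, Measure.restrict_apply_univ, Real.volume_pi_closedBall x hs.le]
  apply le_of_eq
  congr 1
  rw [Fintype.card_fin, show (3 : ℝ) = ((3 : ℕ) : ℝ) by norm_num, Real.rpow_natCast]
  ring

/-- the integral of the kernel over a ball around its pole -/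
lemma kerS (x : W3) {s : ℝ} (hs : 0 < s) :
    ∫⁻ y in closedBall x s, ENNReal.ofReal ((‖y - x‖ ^ 2)⁻¹) ≤ ENNReal.ofReal (64 * s) := by
  have h1 := near (f := fun _ => 1) (x := x) (B := 8) (a := 3) (p := 2) hs (by norm_num)
    (by norm_num) (fun s hs => vol x hs)
  simp only [one_mul] at h1
  refine h1.trans (ENNReal.ofReal_le_ofReal (le_of_eq ?_))
  have e1 : (3 : ℝ) - (2 : ℕ) = 1 := by norm_num
  have e2 : ((2 : ℕ) : ℝ) - 3 = -1 := by norm_num
  rw [e1, e2, Real.rpow_one, Real.rpow_neg_one]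
  ring

/-- the integral of the kernel over an arbitrary ball -/
lemma kerN (x z : W3) {r : ℝ} (hr : 0 < r) :
    (‖z - x‖ ≤ 2 * r → ∫⁻ y in closedBall x r, ENNReal.ofReal ((‖y - z‖ ^ 2)⁻¹) ≤
      ENNReal.ofReal (192 * r)) ∧
    (2 * r < ‖z - x‖ → ∫⁻ y in closedBall x r, ENNReal.ofReal ((‖y - z‖ ^ 2)⁻¹) ≤
      ENNReal.ofReal (32 * r ^ 3) * ENNReal.ofReal ((‖z - x‖ ^ 2)⁻¹)) := by
  constructor
  · intro h
    refine (lintegral_mono_set (t := closedBall z (3 * r)) ?_).trans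
      ((kerS z (by positivity)).trans (ENNReal.ofReal_le_ofReal (le_of_eq (by ring))))
    refine closedBall_subset_closedBall' ?_
    rw [dist_comm, dist_eq_norm]
    linarith
  · intro h
    have hd : 0 < ‖z - x‖ := by linarith
    have h1 : ∀ y ∈ closedBall x r, ENNReal.ofReal ((‖y - z‖ ^ 2)⁻¹) ≤
        ENNReal.ofReal (4 * (‖z - x‖ ^ 2)⁻¹) * 1 := by
      intro y hy
      rw [mul_one]
      refine ENNReal.ofReal_le_ofReal ?_
      rw [mem_closedBall, dist_eq_norm] at hy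
      have h2 : ‖z - x‖ ≤ ‖y - z‖ + ‖y - x‖ := by
        calc ‖z - x‖ = ‖(y - x) - (y - z)‖ := by congr 1; abel
          _ ≤ ‖y - x‖ + ‖y - z‖ := norm_sub_le _ _
          _ = _ := add_comm _ _
      have h3 : ‖z - x‖ / 2 ≤ ‖y - z‖ := by linarith
      have h4 : (‖y - z‖ ^ 2)⁻¹ ≤ ((‖z - x‖ / 2) ^ 2)⁻¹ :=
        inv_anti₀ (by positivity) (pow_le_pow_left₀ (by positivity) h3 2)
      refine h4.trans (le_of_eq ?_)
      field_simp
      norm_num
    refine (setLIntegral_mono' measurableSet_closedBall h1).trans ?_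
    rw [lintegral_const_mul' _ _ ENNReal.ofReal_ne_top]
    refine (mul_le_mul_right (vol x hr) _).trans (le_of_eq ?_)
    rw [← ENNReal.ofReal_mul (by positivity), ← ENNReal.ofReal_mul (by positivity)]
    congr 1
    rw [show (3 : ℝ) = ((3 : ℕ) : ℝ) by norm_num, Real.rpow_natCast]
    ring

/-- the potential of order one -/
noncomputable def Phi (f : W3 → ℝ≥0∞) (y : W3) : ℝ≥0∞ :=
  ∫⁻ z, f z * ENNReal.ofReal ((‖y - z‖ ^ 2)⁻¹)

lemma two_third : (2 : ℝ) ^ (1 / 3 : ℝ) ≤ 2 := by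
  calc (2 : ℝ) ^ (1 / 3 : ℝ) ≤ (2 : ℝ) ^ (1 : ℝ) :=
        Real.rpow_le_rpow_of_exponent_le (by norm_num) (by norm_num)
    _ = 2 := Real.rpow_one 2

lemma geo1 : (1 - (2 : ℝ) ^ ((1 / 3 : ℝ) - (2 : ℕ)))⁻¹ ≤ 2 := by
  have h1 : (2 : ℝ) ^ ((1 / 3 : ℝ) - (2 : ℕ)) ≤ 1 / 2 := by
    calc (2 : ℝ) ^ ((1 / 3 : ℝ) - (2 : ℕ)) ≤ (2 : ℝ) ^ (-1 : ℝ) :=
          Real.rpow_le_rpow_of_exponent_le (by norm_num) (by norm_num)
      _ = 1 / 2 := by rw [Real.rpow_neg_one]; norm_num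
  rw [inv_le_comm₀ (by linarith) (by norm_num)]
  linarith

lemma geo2 : (1 - (2 : ℝ) ^ (((1 : ℕ) : ℝ) - (4 / 3 : ℝ)))⁻¹ ≤ 5 := by
  have h1 : (2 : ℝ) ^ (((1 : ℕ) : ℝ) - (4 / 3 : ℝ)) ≤ 4 / 5 := by
    have h2 : ((2 : ℝ) ^ (((1 : ℕ) : ℝ) - (4 / 3 : ℝ))) ^ 3 ≤ (4 / 5) ^ 3 := by
      rw [← Real.rpow_natCast, ← Real.rpow_mul (by norm_num)]
      have e : (((1 : ℕ) : ℝ) - (4 / 3 : ℝ)) * ((3 : ℕ) : ℝ) = -1 := by norm_num
      rw [e, Real.rpow_neg_one]
      norm_num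
    exact le_of_pow_le_pow_left₀ (by norm_num) (by norm_num) h2
  rw [inv_le_comm₀ (by linarith) (by norm_num)]
  linarith

lemma ker_meas : Measurable fun q : W3 × W3 => ENNReal.ofReal ((‖q.1 - q.2‖ ^ 2)⁻¹) := by
  fun_prop

/-- the integral of the potential over balls -/
lemma Phi_ball {f : W3 → ℝ≥0∞} {A : ℝ} (hm : Measurable f) (hA : 0 ≤ A)
    (hf : ∀ x s, 0 < s → ∫⁻ y in closedBall x s, f y ≤ ENNReal.ofReal (A * s ^ (1 / 3 : ℝ)))
    (x : W3) {r : ℝ} (hr : 0 < r) :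
    ∫⁻ y in closedBall x r, Phi f y ≤ ENNReal.ofReal (1000 * A * r ^ (4 / 3 : ℝ)) := by
  unfold Phi
  rw [lintegral_lintegral_swap]
  swap
  · exact ((hm.comp measurable_snd).mul ker_meas).aemeasurable
  have e1 : ∀ z, ∫⁻ y in closedBall x r, f z * ENNReal.ofReal ((‖y - z‖ ^ 2)⁻¹) =
      f z * ∫⁻ y in closedBall x r, ENNReal.ofReal ((‖y - z‖ ^ 2)⁻¹) := by
    intro z
    refine lintegral_const_mul _ ?_
    fun_prop
  simp only [e1]
  rw [← lintegral_add_compl _ (measurableSet_closedBall (x := x) (ε := 2 * r))]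
  have h1 : ∫⁻ z in closedBall x (2 * r),
      f z * ∫⁻ y in closedBall x r, ENNReal.ofReal ((‖y - z‖ ^ 2)⁻¹) ≤
      ENNReal.ofReal (384 * A * r ^ (4 / 3 : ℝ)) := by
    calc ∫⁻ z in closedBall x (2 * r),
          f z * ∫⁻ y in closedBall x r, ENNReal.ofReal ((‖y - z‖ ^ 2)⁻¹)
        ≤ ∫⁻ z in closedBall x (2 * r), ENNReal.ofReal (192 * r) * f z := by
          refine setLIntegral_mono' measurableSet_closedBall fun z hz => ?_
          rw [mul_comm]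
          gcongr
          refine (kerN x z hr).1 ?_
          rwa [mem_closedBall, dist_eq_norm] at hz
      _ = ENNReal.ofReal (192 * r) * ∫⁻ z in closedBall x (2 * r), f z :=
          lintegral_const_mul' _ _ ENNReal.ofReal_ne_top
      _ ≤ ENNReal.ofReal (192 * r) * ENNReal.ofReal (A * (2 * r) ^ (1 / 3 : ℝ)) := by
          gcongr
          exact hf x _ (by positivity)
      _ ≤ _ := by
          rw [← ENNReal.ofReal_mul (by positivity)]
          refine ENNReal.ofReal_le_ofReal ?_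
          rw [Real.mul_rpow (by norm_num) hr.le]
          have e2 : r ^ (4 / 3 : ℝ) = r * r ^ (1 / 3 : ℝ) := by
            rw [show (4 / 3 : ℝ) = 1 + 1 / 3 by norm_num, Real.rpow_add hr, Real.rpow_one]
          rw [e2]
          calc 192 * r * (A * (2 ^ (1 / 3 : ℝ) * r ^ (1 / 3 : ℝ)))
              ≤ 192 * r * (A * (2 * r ^ (1 / 3 : ℝ))) := by
                have := two_third
                gcongr
            _ = _ := by ring
  have h2 : ∫⁻ z in (closedBall x (2 * r))ᶜ,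
      f z * ∫⁻ y in closedBall x r, ENNReal.ofReal ((‖y - z‖ ^ 2)⁻¹) ≤
      ENNReal.ofReal (512 * A * r ^ (4 / 3 : ℝ)) := by
    have hfar := far (f := f) (x := x) (B := A) (a := 1 / 3) (p := 2) (R := 2 * r) (by positivity) hA
      (by norm_num) (hf x)
    calc ∫⁻ z in (closedBall x (2 * r))ᶜ,
          f z * ∫⁻ y in closedBall x r, ENNReal.ofReal ((‖y - z‖ ^ 2)⁻¹)
        ≤ ∫⁻ z in (closedBall x (2 * r))ᶜ,
            ENNReal.ofReal (32 * r ^ 3) * (f z * ENNReal.ofReal ((‖z - x‖ ^ 2)⁻¹)) := by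
          refine setLIntegral_mono' measurableSet_closedBall.compl fun z hz => ?_
          rw [mem_compl_iff, mem_closedBall, dist_eq_norm, not_le] at hz
          calc f z * ∫⁻ y in closedBall x r, ENNReal.ofReal ((‖y - z‖ ^ 2)⁻¹)
              ≤ f z * (ENNReal.ofReal (32 * r ^ 3) * ENNReal.ofReal ((‖z - x‖ ^ 2)⁻¹)) := by
                gcongr
                exact (kerN x z hr).2 hz
            _ = _ := by ring
      _ = ENNReal.ofReal (32 * r ^ 3) * ∫⁻ z in (closedBall x (2 * r))ᶜ,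
            f z * ENNReal.ofReal ((‖z - x‖ ^ 2)⁻¹) :=
          lintegral_const_mul' _ _ ENNReal.ofReal_ne_top
      _ ≤ ENNReal.ofReal (32 * r ^ 3) * ENNReal.ofReal (A * (2 * r) ^ ((1 / 3 : ℝ) - (2 : ℕ)) *
            (2 ^ 2 * 2 ^ (1 / 3 : ℝ)) * (1 - (2 : ℝ) ^ ((1 / 3 : ℝ) - (2 : ℕ)))⁻¹) := by
          gcongr
      _ ≤ _ := by
          rw [← ENNReal.ofReal_mul (by positivity)]
          refine ENNReal.ofReal_le_ofReal ?_
          have e2 : r ^ (4 / 3 : ℝ) = r ^ 3 * r ^ ((1 / 3 : ℝ) - (2 : ℕ)) := by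
            rw [show (4 / 3 : ℝ) = (3 : ℕ) + ((1 / 3 : ℝ) - (2 : ℕ)) by norm_num, Real.rpow_add hr,
              Real.rpow_natCast]
          have e3 : (2 * r) ^ ((1 / 3 : ℝ) - (2 : ℕ)) ≤ r ^ ((1 / 3 : ℝ) - (2 : ℕ)) :=
            Real.rpow_le_rpow_of_nonpos hr (by linarith) (by norm_num)
          have e4 := two_third
          have e5 := geo1
          have e6 : 0 ≤ (1 - (2 : ℝ) ^ ((1 / 3 : ℝ) - (2 : ℕ)))⁻¹ := by
            refine inv_nonneg.2 (sub_nonneg.2 ?_)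
            exact (Real.rpow_lt_one_of_one_lt_of_neg (by norm_num) (by norm_num)).le
          rw [e2]
          calc 32 * r ^ 3 * (A * (2 * r) ^ ((1 / 3 : ℝ) - (2 : ℕ)) * (2 ^ 2 * 2 ^ (1 / 3 : ℝ)) *
                (1 - (2 : ℝ) ^ ((1 / 3 : ℝ) - (2 : ℕ)))⁻¹)
              ≤ 32 * r ^ 3 * (A * r ^ ((1 / 3 : ℝ) - (2 : ℕ)) * (2 ^ 2 * 2) * 2) := by
                gcongr
            _ = _ := by ring
  refine (add_le_add h1 h2).trans ?_
  rw [← ENNReal.ofReal_add (by positivity) (by positivity)]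
  refine ENNReal.ofReal_le_ofReal ?_
  have : 0 ≤ A * r ^ (4 / 3 : ℝ) := by positivity
  nlinarith

/-- the bound in the Kato class -/
lemma Phi_kato {f : W3 → ℝ≥0∞} {A : ℝ} (hm : Measurable f) (hA : 0 ≤ A)
    (hf : ∀ x s, 0 < s → ∫⁻ y in closedBall x s, f y ≤ ENNReal.ofReal (A * s ^ (1 / 3 : ℝ)))
    (x : W3) {S : ℝ} (hS : 0 < S) :
    ∫⁻ y in closedBall x S, Phi f y * ENNReal.ofReal ((‖y - x‖)⁻¹) ≤
      ENNReal.ofReal (10000 * A * S ^ (1 / 3 : ℝ)) := by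
  have h1 := near (f := Phi f) (x := x) (B := 1000 * A) (a := 4 / 3) (p := 1) hS (by positivity)
    (by norm_num) (fun s hs => Phi_ball hm hA hf x hs)
  simp only [pow_one] at h1
  refine h1.trans (ENNReal.ofReal_le_ofReal ?_)
  have e1 : (4 / 3 : ℝ) - (1 : ℕ) = 1 / 3 := by norm_num
  have e5 := geo2
  have h0 : 0 ≤ 1000 * A * S ^ (1 / 3 : ℝ) * 2 := by positivity
  rw [e1]
  calc 1000 * A * S ^ (1 / 3 : ℝ) * 2 * (1 - (2 : ℝ) ^ (((1 : ℕ) : ℝ) - (4 / 3 : ℝ)))⁻¹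
      ≤ 1000 * A * S ^ (1 / 3 : ℝ) * 2 * 5 := mul_le_mul_of_nonneg_left e5 h0
    _ = _ := by ring

end Pool.Agent.Q285.LV
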