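import Pool.Agent.Q67.LV.Defs
import Pool.Agent.Q67.VD.Dec1
import Pool.Agent.Q285.LV.PotA

/-!
# Project LV, job LV-5: the Newtonian potential of a small source (helper285)
-/

set_option autoImplicit false

open MeasureTheory Set Metric Filter Topology
open scoped ContDiff ENNReal Convolution
open H459R3.NS

namespace Pool.Agent.Q285.LV

open Pool.Agent.Q153.VD (nn nn_nonneg nn_smooth s P E D D_int D_int_pos D_scale D_pos D_smooth
  smoothE div_E E_le)
open Pool.Agent.Q67.VD (P0_eq E0_le E_lim ae_ne_zero len)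

lemma E0_bd (i : Fin 3) (z : V) : |E 0 i z| ≤ (‖z‖ ^ 2)⁻¹ := by
  by_cases hz : z = 0
  · rw [hz, E]
    simp
  · exact E0_le hz i

lemma E0_meas (i : Fin 3) : Measurable (E 0 i) := by
  have h1 : Measurable nn := nn_smooth.continuous.measurable
  have h2 : Measurable (P 0) := by
    have : P 0 = fun z => (√(nn z))⁻¹ := funext P0_eq
    rw [this]
    exact h1.sqrt.inv
  have h3 : Measurable fun z : V => z i := measurable_pi_apply i
  have h4 : E 0 i = fun z => -(z i * P 0 z ^ 3) := rfl
  rw [h4]
  exact (h3.mul (h2.pow_const 3)).neg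

/-- the truncated majorant of the kernel -/
noncomputable def tk (R : ℝ) (t : V) : ℝ := (closedBall (0 : V) R).indicator (fun t => (‖t‖ ^ 2)⁻¹) t

lemma tk_nonneg (R : ℝ) (t : V) : 0 ≤ tk R t :=
  indicator_nonneg (fun t _ => by positivity) t

lemma tk_int {R : ℝ} (hR : 0 < R) : Integrable (tk R) := by
  have h1 : IntegrableOn (fun z : V => (‖z‖ ^ 2)⁻¹) (closedBall 0 R) := by
    refine ⟨by fun_prop, ?_⟩
    rw [HasFiniteIntegral]
    have h2 := kerS (0 : V) hR
    simp only [sub_zero] at h2
    have e : ∀ z : V, ‖(‖z‖ ^ 2)⁻¹‖ₑ = ENNReal.ofReal ((‖z‖ ^ 2)⁻¹) := fun z =>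
      Real.enorm_of_nonneg (by positivity)
    simp only [e]
    exact h2.trans_lt ENNReal.ofReal_lt_top
  exact (integrable_indicator_iff measurableSet_closedBall).2 h1

lemma ker_loc {K : V → ℝ} (hKm : Measurable K) (hK : ∀ t, |K t| ≤ (‖t‖ ^ 2)⁻¹) :
    LocallyIntegrable K := by
  rw [locallyIntegrable_iff]
  intro k hk
  obtain ⟨R, hR⟩ := hk.isBounded.subset_closedBall (0 : V)
  have h1 := tk_int (R := max R 1) (by positivity)
  refine (h1.integrableOn (s := k)).mono' hKm.aestronglyMeasurable ?_
  refine (ae_restrict_iff' hk.measurableSet).2 (ae_of_all _ fun t ht => ?_)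
  rw [Real.norm_eq_abs, tk, indicator_of_mem]
  · exact hK t
  · exact closedBall_subset_closedBall (le_max_left _ _) (hR ht)

/-- the two iterated integrals -/
lemma fub {g σ K : V → ℝ} (hg : Continuous g) (hgc : HasCompactSupport g) (hσ : Continuous σ)
    (hσc : HasCompactSupport σ) (hKm : Measurable K) (hK : ∀ t, |K t| ≤ (‖t‖ ^ 2)⁻¹) :
    ∫ y, g y * ∫ t, K t * σ (y - t) = ∫ z, σ z * ∫ t, g (z + t) * K t := by
  obtain ⟨R1, hR1⟩ := hgc.isCompact.isBounded.subset_closedBall (0 : V)
  obtain ⟨R2, hR2⟩ := hσc.isCompact.isBounded.subset_closedBall (0 : V)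
  obtain ⟨Bg, hBg⟩ := hg.bounded_above_of_compact_support hgc
  obtain ⟨Bs, hBs⟩ := hσ.bounded_above_of_compact_support hσc
  have g0 : ∀ y, g y ≠ 0 → ‖y‖ ≤ R1 := fun y hy => by
    have := hR1 (subset_tsupport g hy)
    rwa [mem_closedBall, dist_zero_right] at this
  have s0 : ∀ y, σ y ≠ 0 → ‖y‖ ≤ R2 := fun y hy => by
    have := hR2 (subset_tsupport σ hy)
    rwa [mem_closedBall, dist_zero_right] at this
  obtain ⟨R, hRd⟩ : ∃ R, R = max (R1 + R2) 1 := ⟨_, rfl⟩
  have hR : 0 < R := by rw [hRd]; positivity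
  have hRR : R1 + R2 ≤ R := by rw [hRd]; exact le_max_left _ _
  have tkR : ∀ t : V, ‖t‖ ≤ R → |K t| ≤ tk R t := fun t ht => by
    rw [tk, indicator_of_mem (by rwa [mem_closedBall, dist_zero_right])]
    exact hK t
  have hgi : Integrable g := hg.integrable_of_hasCompactSupport hgc
  have hsi : Integrable σ := hσ.integrable_of_hasCompactSupport hσc
  have hBs0 : 0 ≤ Bs := (norm_nonneg _).trans (hBs 0)
  have hBg0 : 0 ≤ Bg := (norm_nonneg _).trans (hBg 0)
  have i1 : Integrable (Function.uncurry fun y t : V => g y * (K t * σ (y - t)))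
      (volume.prod volume) := by
    have h1 : Integrable (fun q : V × V => |g q.1| * (tk R q.2 * Bs)) (volume.prod volume) :=
      hgi.abs.mul_prod ((tk_int hR).mul_const Bs)
    refine h1.mono' ?_ (ae_of_all _ fun q => ?_)
    · refine Measurable.aestronglyMeasurable ?_
      exact (hg.measurable.comp measurable_fst).mul ((hKm.comp measurable_snd).mul
        (hσ.measurable.comp (measurable_fst.sub measurable_snd)))
    · simp only [Function.uncurry]
      rw [norm_mul, norm_mul, Real.norm_eq_abs, Real.norm_eq_abs]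
      by_cases h2 : g q.1 = 0
      · rw [h2]
        simp
      by_cases h3 : σ (q.1 - q.2) = 0
      · rw [h3, norm_zero, mul_zero, mul_zero]
        have := tk_nonneg R q.2
        positivity
      · have h4 : ‖q.2‖ ≤ R := by
          have h5 : ‖q.2‖ ≤ ‖q.1‖ + ‖q.1 - q.2‖ := by
            calc ‖q.2‖ = ‖q.1 - (q.1 - q.2)‖ := by congr 1; abel
              _ ≤ _ := norm_sub_le _ _
          linarith [g0 _ h2, s0 _ h3]
        have h6 := tkR _ h4
        have h7 := hBs (q.1 - q.2)
        gcongr
        exact tk_nonneg R q.2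
  have i2 : Integrable (Function.uncurry fun t z : V => g (z + t) * (K t * σ z))
      (volume.prod volume) := by
    have h1 : Integrable (fun q : V × V => (tk R q.1 * Bg) * |σ q.2|) (volume.prod volume) :=
      ((tk_int hR).mul_const Bg).mul_prod hsi.abs
    refine h1.mono' ?_ (ae_of_all _ fun q => ?_)
    · refine Measurable.aestronglyMeasurable ?_
      exact (hg.measurable.comp (measurable_snd.add measurable_fst)).mul ((hKm.comp measurable_fst).mul
        (hσ.measurable.comp measurable_snd))
    · simp only [Function.uncurry]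
      rw [norm_mul, norm_mul, Real.norm_eq_abs (K q.1), Real.norm_eq_abs (σ q.2)]
      by_cases h2 : g (q.2 + q.1) = 0
      · rw [h2, norm_zero, zero_mul]
        have := tk_nonneg R q.1
        positivity
      by_cases h3 : σ q.2 = 0
      · rw [h3]
        simp
      · have h4 : ‖q.1‖ ≤ R := by
          have h5 : ‖q.1‖ ≤ ‖q.2 + q.1‖ + ‖q.2‖ := by
            calc ‖q.1‖ = ‖(q.2 + q.1) - q.2‖ := by congr 1; abel
              _ ≤ _ := norm_sub_le _ _
          linarith [g0 _ h2, s0 _ h3]
        have h6 := tkR _ h4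
        have h7 := hBg (q.2 + q.1)
        calc ‖g (q.2 + q.1)‖ * (|K q.1| * |σ q.2|) ≤ Bg * (tk R q.1 * |σ q.2|) := by
              gcongr
          _ = _ := by ring
  calc ∫ y, g y * ∫ t, K t * σ (y - t) = ∫ y, ∫ t, g y * (K t * σ (y - t)) := by
        simp only [integral_const_mul]
    _ = ∫ t, ∫ y, g y * (K t * σ (y - t)) := integral_integral_swap i1
    _ = ∫ t, ∫ z, g (z + t) * (K t * σ z) := by
        refine integral_congr_ae (ae_of_all _ fun t => ?_)
        simp only
        rw [← integral_add_right_eq_self (fun y => g y * (K t * σ (y - t))) t]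
        simp only [add_sub_cancel_right]
    _ = ∫ z, ∫ t, g (z + t) * (K t * σ z) := integral_integral_swap i2
    _ = ∫ z, σ z * ∫ t, g (z + t) * K t := by
        refine integral_congr_ae (ae_of_all _ fun z => ?_)
        simp only
        rw [← integral_const_mul]
        congr 1
        funext t
        ring

/-- the fundamental solution -/
lemma rep {G : V → ℝ} (hG : ContDiff ℝ 1 G) (hc : HasCompactSupport G) :
    ∑ i, ∫ t, pd i G t * E 0 i t = (∫ z : V, D 1 z) * G 0 := by
  have hGd : Differentiable ℝ G := hG.differentiable one_ne_zero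
  have hGf : Continuous (fderiv ℝ G) := hG.continuous_fderiv one_ne_zero
  have hpc : ∀ i, Continuous (pd i G) := fun i => hGf.clm_apply continuous_const
  have hps : ∀ i, HasCompactSupport (pd i G) := fun i => hc.fderiv_apply ℝ (Pi.single i 1)
  have step : ∀ n : ℕ, ∑ i, ∫ t, pd i G t * E (1 / ((n : ℝ) + 1)) i t =
      ∫ t, G t * D (1 / ((n : ℝ) + 1)) t := by
    intro n
    obtain ⟨ε, hε'⟩ : ∃ ε : ℝ, ε = 1 / ((n : ℝ) + 1) := ⟨_, rfl⟩
    have hε : 0 < ε := by rw [hε']; positivity
    rw [← hε']
    have hEs := fun i => smoothE hε i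
    have hEd := fun i => (hEs i).differentiable (by simp)
    have hEp : ∀ i, Continuous (pd i (E ε i)) := fun i =>
      ((hEs i).continuous_fderiv (by simp)).clm_apply continuous_const
    have ibp : ∀ i, ∫ x, G x * pd i (E ε i) x = - ∫ x, pd i G x * E ε i x := by
      intro i
      refine integral_mul_fderiv_eq_neg_fderiv_mul_of_integrable (f := G) (g := E ε i) (μ := volume)
        ?_ ?_ ?_ (fun x _ => hGd x) (fun x _ => hEd i x)
      · exact ((hpc i).mul (hEs i).continuous).integrable_of_hasCompactSupport (hps i).mul_right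
      · exact (hG.continuous.mul (hEp i)).integrable_of_hasCompactSupport hc.mul_right
      · exact (hG.continuous.mul (hEs i).continuous).integrable_of_hasCompactSupport hc.mul_right
    have e1 : ∑ i, ∫ x, G x * pd i (E ε i) x = - ∫ t, G t * D ε t := by
      have hi : ∀ i ∈ (Finset.univ : Finset (Fin 3)), Integrable (fun x => G x * pd i (E ε i) x) :=
        fun i _ => (hG.continuous.mul (hEp i)).integrable_of_hasCompactSupport hc.mul_right
      rw [← integral_finsetSum _ hi, ← integral_neg]
      congr 1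
      funext t
      rw [← Finset.mul_sum, div_E hε t]
      ring
    simp only [ibp, Finset.sum_neg_distrib] at e1
    linarith
  have l1 : Tendsto (fun n : ℕ => ∫ t, G t * D (1 / ((n : ℝ) + 1)) t) atTop
      (𝓝 ((∫ z : V, D 1 z) * G 0)) := by
    have h1 : ∀ n : ℕ, ∫ z, G z * D (1 / ((n : ℝ) + 1)) z =
        ∫ z, G ((1 / ((n : ℝ) + 1)) • z) * D 1 z := by
      intro n
      obtain ⟨ε, hε'⟩ : ∃ ε : ℝ, ε = 1 / ((n : ℝ) + 1) := ⟨_, rfl⟩
      have hε : 0 < ε := by rw [hε']; positivity
      rw [← hε']
      have h2 := Measure.integral_comp_smul (volume : Measure V) (fun z => G z * D ε z) ε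
      have h3 : Module.finrank ℝ V = 3 := by simp
      rw [h3, abs_of_pos (by positivity), smul_eq_mul] at h2
      have h4 : (fun z : V => G (ε • z) * D ε (ε • z)) =
          fun z => (ε ^ 3)⁻¹ * (G (ε • z) * D 1 z) := by
        funext z
        rw [D_scale hε]
        ring
      rw [h4, integral_const_mul] at h2
      have h5 : (ε ^ 3)⁻¹ ≠ 0 := by positivity
      exact (mul_left_cancel₀ h5 h2).symm
    simp only [h1]
    obtain ⟨B, hB⟩ := hG.continuous.bounded_above_of_compact_support hc
    rw [mul_comm, ← integral_const_mul]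
    refine tendsto_integral_of_dominated_convergence (fun z => B * D 1 z) ?_ (D_int.const_mul B)
      ?_ ?_
    · intro n
      refine Continuous.aestronglyMeasurable ?_
      exact (hG.continuous.comp (continuous_const_smul _)).mul (D_smooth one_pos).continuous
    · intro n
      refine ae_of_all _ fun z => ?_
      rw [norm_mul, Real.norm_eq_abs (D 1 z), abs_of_pos (D_pos one_pos z)]
      exact mul_le_mul_of_nonneg_right (hB _) (D_pos one_pos z).le
    · refine ae_of_all _ fun z => ?_
      refine Tendsto.mul_const _ ?_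
      have h2 : Tendsto (fun n : ℕ => (1 / ((n : ℝ) + 1)) • z) atTop (𝓝 0) := by
        have h3 := (tendsto_one_div_add_atTop_nhds_zero_nat (𝕜 := ℝ)).smul_const z
        rwa [zero_smul] at h3
      exact (hG.continuous.tendsto 0).comp h2
  refine tendsto_nhds_unique ?_ l1
  simp only [← step]
  refine tendsto_finsetSum _ fun i _ => ?_
  obtain ⟨B, hB⟩ := (hpc i).bounded_above_of_compact_support (hps i)
  obtain ⟨R, hR⟩ := (hps i).isCompact.isBounded.subset_closedBall (0 : V)
  have hB0 : 0 ≤ B := (norm_nonneg _).trans (hB 0)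
  have hR1 : 0 < max R 1 := by positivity
  refine tendsto_integral_of_dominated_convergence (fun t => B * tk (max R 1) t) ?_
    ((tk_int hR1).const_mul B) ?_ ?_
  · intro n
    exact ((hpc i).mul (smoothE (by positivity) i).continuous).aestronglyMeasurable
  · intro n
    filter_upwards [ae_ne_zero] with t ht
    rw [norm_mul]
    by_cases h2 : pd i G t = 0
    · rw [h2, norm_zero, zero_mul]
      exact mul_nonneg hB0 (tk_nonneg _ _)
    · have h3 : t ∈ closedBall (0 : V) (max R 1) :=
        closedBall_subset_closedBall (le_max_left _ _) (hR (subset_tsupport _ h2))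
      rw [tk, indicator_of_mem h3]
      exact mul_le_mul (hB t) (E_le (by positivity) i t ht) (norm_nonneg _) hB0
  · filter_upwards [ae_ne_zero] with t ht
    exact (E_lim ht i).const_mul _

/-- the components of the potential -/
noncomputable def Jp (σ : V → ℝ) (i : Fin 3) (y : V) : ℝ := ∫ t, E 0 i t * σ (y - t)

lemma Jp_cont {σ : V → ℝ} (hσ : Continuous σ) (hσc : HasCompactSupport σ) (i : Fin 3) :
    Continuous (Jp σ i) := by
  have h1 := hσc.continuous_convolution_right (ContinuousLinearMap.mul ℝ ℝ)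
    (ker_loc (E0_meas i) (E0_bd i)) hσ (μ := volume)
  exact h1

lemma Jp_le (σ : V → ℝ) (i : Fin 3) (y : V) : ‖Jp σ i y‖ₑ ≤ Phi (fun z => ‖σ z‖ₑ) y := by
  unfold Jp Phi
  refine (enorm_integral_le_lintegral_enorm _).trans ?_
  rw [← lintegral_sub_left_eq_self (fun z => ‖σ z‖ₑ * ENNReal.ofReal ((‖y - z‖ ^ 2)⁻¹)) y]
  refine lintegral_mono fun t => ?_
  simp only [sub_sub_cancel]
  rw [enorm_mul, mul_comm]
  gcongr
  rw [← ofReal_norm]
  exact ENNReal.ofReal_le_ofReal (E0_bd i t)

lemma len_le (a : V) : len a ≤ ∑ i, |a i| := by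
  unfold len
  refine Real.sqrt_le_iff.2 ⟨Finset.sum_nonneg fun i _ => abs_nonneg _, ?_⟩
  rw [dotProduct]
  simp only [Fin.sum_univ_three]
  have h0 := abs_nonneg (a 0)
  have h1 := abs_nonneg (a 1)
  have h2 := abs_nonneg (a 2)
  have e0 := sq_abs (a 0)
  have e1 := sq_abs (a 1)
  have e2 := sq_abs (a 2)
  nlinarith [mul_nonneg h0 h1, mul_nonneg h0 h2, mul_nonneg h1 h2]

lemma len_cont : Continuous len := by
  unfold len dotProduct
  fun_prop

theorem potK : Pool.Agent.Q67.LV.StmPotK := by
  obtain ⟨c, hc⟩ : ∃ c : ℝ, c = ∫ z : V, D 1 z := ⟨_, rfl⟩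
  have hc0 : 0 < c := by rw [hc]; exact D_int_pos
  refine ⟨30000 * c⁻¹, by positivity, fun σ a ρ A hσ hρ hA hsupp hM => ?_⟩
  have hσc : HasCompactSupport σ := (isCompact_closedBall a ρ).of_isClosed_subset
    (isClosed_tsupport σ) hsupp
  have hf : ∀ x s, 0 < s → ∫⁻ y in closedBall x s, ‖σ y‖ₑ ≤ ENNReal.ofReal (A * s ^ (1 / 3 : ℝ)) := by
    intro x s hs
    have hi : IntegrableOn σ (closedBall x s) :=
      hσ.continuousOn.integrableOn_compact (isCompact_closedBall x s)
    rw [← ofReal_integral_norm_eq_lintegral_enorm hi]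
    exact ENNReal.ofReal_le_ofReal (hM x s hs)
  have hfm : Measurable fun z => ‖σ z‖ₑ := hσ.measurable.enorm
  obtain ⟨Z, hZ⟩ : ∃ Z : V → V, Z = fun y i => -c⁻¹ * Jp σ i y := ⟨_, rfl⟩
  have hZi : ∀ i y, Z y i = -c⁻¹ * Jp σ i y := fun i y => by rw [hZ]
  have hZc : Continuous Z := by
    rw [hZ]
    exact continuous_pi fun i => continuous_const.mul (Jp_cont hσ hσc i)
  refine ⟨Z, hZc, fun F hF hFc => ?_, fun x S hS => ?_⟩
  · have hFf : Continuous (fderiv ℝ F) := hF.continuous_fderiv one_ne_zero
    have hpc : ∀ i, Continuous (pd i F) := fun i => hFf.clm_apply continuous_const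
    have hps : ∀ i, HasCompactSupport (pd i F) := fun i => hFc.fderiv_apply ℝ (Pi.single i 1)
    have e1 : ∀ y, fderiv ℝ F y (Z y) = ∑ i, -c⁻¹ * (pd i F y * Jp σ i y) := by
      intro y
      have h1 : Z y = ∑ i, Z y i • (Pi.single i 1 : V) := by
        funext j
        simp [Finset.sum_apply, Pi.single_apply]
      rw [h1, map_sum]
      refine Finset.sum_congr rfl fun i _ => ?_
      rw [map_smul, hZi, smul_eq_mul]
      unfold pd
      ring
    have hint : ∀ i ∈ (Finset.univ : Finset (Fin 3)), Integrable (fun y => -c⁻¹ * (pd i F y * Jp σ i y)) :=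
      fun i _ => (((hpc i).mul (Jp_cont hσ hσc i)).integrable_of_hasCompactSupport
        (hps i).mul_right).const_mul _
    have e2 : ∀ i, ∫ y, -c⁻¹ * (pd i F y * Jp σ i y) =
        -c⁻¹ * ∫ z, σ z * ∫ t, pd i F (z + t) * E 0 i t := by
      intro i
      rw [integral_const_mul]
      congr 1
      exact fub (hpc i) (hps i) hσ hσc (E0_meas i) (E0_bd i)
    have e3 : ∀ z, ∑ i, ∫ t, pd i F (z + t) * E 0 i t = c * F z := by
      intro z
      have hG : ContDiff ℝ 1 (fun t => F (z + t)) := hF.comp (contDiff_const.add contDiff_id)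
      have hGc : HasCompactSupport (fun t => F (z + t)) := by
        have := hFc.comp_homeomorph (Homeomorph.addLeft z)
        exact this
      have h1 := rep hG hGc
      have h2 : ∀ i t, pd i (fun t => F (z + t)) t = pd i F (z + t) := by
        intro i t
        unfold pd
        rw [fderiv_comp_add_left]
      simp only [h2, add_zero] at h1
      rw [h1, hc]
    have hint2 : ∀ i ∈ (Finset.univ : Finset (Fin 3)),
        Integrable (fun z => σ z * ∫ t, pd i F (z + t) * E 0 i t) := by
      intro i _
      have hcont : Continuous fun z => ∫ t, pd i F (z + t) * E 0 i t := by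
        have hg' : Continuous (fun z => pd i F (-z)) := (hpc i).comp continuous_neg
        have hgc' : HasCompactSupport (fun z => pd i F (-z)) :=
          (hps i).comp_homeomorph (Homeomorph.neg V)
        have h1 : Continuous fun z : V => ∫ t, E 0 i t * pd i F (-(z - t)) :=
          hgc'.continuous_convolution_right (ContinuousLinearMap.mul ℝ ℝ)
            (ker_loc (E0_meas i) (E0_bd i)) hg' (μ := volume)
        have h2 := h1.comp continuous_neg
        refine h2.congr fun z => ?_
        simp only [Function.comp_apply]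
        congr 1
        funext t
        rw [mul_comm]
        congr 2
        abel
      exact (hσ.mul hcont).integrable_of_hasCompactSupport hσc.mul_right
    simp only [e1]
    rw [integral_finsetSum _ hint]
    simp only [e2]
    rw [← Finset.mul_sum, ← integral_finsetSum _ hint2]
    have e4 : ∀ z, ∑ i, σ z * ∫ t, pd i F (z + t) * E 0 i t = c * (F z * σ z) := by
      intro z
      rw [← Finset.mul_sum, e3]
      ring
    simp only [e4]
    rw [integral_const_mul]
    field_simp
  · have h0 : ∀ y, 0 ≤ len (Z y) / ‖y - x‖ := fun y => div_nonneg (Real.sqrt_nonneg _) (norm_nonneg _)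
    have hmeas : AEStronglyMeasurable (fun y => len (Z y) / ‖y - x‖)
        (volume.restrict (closedBall x S)) := by
      refine Measurable.aestronglyMeasurable ?_
      exact (len_cont.comp hZc).measurable.div (by fun_prop)
    rw [integral_eq_lintegral_of_nonneg_ae (ae_of_all _ h0) hmeas]
    refine ENNReal.toReal_le_of_le_ofReal (by positivity) ?_
    have hlen : ∀ y, ENNReal.ofReal (len (Z y)) ≤ ENNReal.ofReal (3 * c⁻¹) * Phi (fun z => ‖σ z‖ₑ) y := by
      intro y
      have h1 : ∀ i, ENNReal.ofReal |Z y i| ≤ ENNReal.ofReal c⁻¹ * Phi (fun z => ‖σ z‖ₑ) y := by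
        intro i
        rw [hZi, abs_mul, abs_neg, abs_of_pos (inv_pos.2 hc0), ENNReal.ofReal_mul (by positivity)]
        gcongr
        have := Jp_le σ i y
        rwa [← ofReal_norm, Real.norm_eq_abs] at this
      calc ENNReal.ofReal (len (Z y)) ≤ ENNReal.ofReal (∑ i, |Z y i|) :=
            ENNReal.ofReal_le_ofReal (len_le _)
        _ = ∑ i, ENNReal.ofReal |Z y i| := ENNReal.ofReal_sum_of_nonneg fun i _ => abs_nonneg _
        _ ≤ ∑ _i : Fin 3, ENNReal.ofReal c⁻¹ * Phi (fun z => ‖σ z‖ₑ) y :=
            Finset.sum_le_sum fun i _ => h1 i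
        _ = _ := by
            rw [Finset.sum_const, Finset.card_univ, Fintype.card_fin, nsmul_eq_mul,
              ENNReal.ofReal_mul (by norm_num), mul_assoc]
            congr 1
            norm_num
    calc ∫⁻ y in closedBall x S, ENNReal.ofReal (len (Z y) / ‖y - x‖)
        ≤ ∫⁻ y in closedBall x S, ENNReal.ofReal (3 * c⁻¹) *
            (Phi (fun z => ‖σ z‖ₑ) y * ENNReal.ofReal ((‖y - x‖)⁻¹)) := by
          refine lintegral_mono fun y => ?_
          have hl0 : 0 ≤ len (Z y) := Real.sqrt_nonneg _
          rw [div_eq_mul_inv, ENNReal.ofReal_mul hl0, ← mul_assoc]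
          gcongr
          exact hlen y
      _ = ENNReal.ofReal (3 * c⁻¹) * ∫⁻ y in closedBall x S,
            Phi (fun z => ‖σ z‖ₑ) y * ENNReal.ofReal ((‖y - x‖)⁻¹) :=
          lintegral_const_mul' _ _ ENNReal.ofReal_ne_top
      _ ≤ ENNReal.ofReal (3 * c⁻¹) * ENNReal.ofReal (10000 * A * S ^ (1 / 3 : ℝ)) := by
          gcongr
          exact Phi_kato hfm hA hf x hS
      _ = _ := by
          rw [← ENNReal.ofReal_mul (by positivity)]
          congr 1
          ring

end Pool.Agent.Q285.LV
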